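import Mathlib

/-!
# Ternary forms: factors of forms, the dimension count of Bezout
(copied from Lib/MP_2194ec_nt/PlA.lean, to keep the closure small)
-/

set_option autoImplicit false

namespace Pool.Agent.Edge.H9.Forms

open MvPolynomial
open scoped Classical

section factors

variable {R : Type} [CommRing R] [IsDomain R] {σ : Type}

/-- the substitution `X i ↦ X i * t` -/
noncomputable def homT (R : Type) [CommRing R] (σ : Type) :
    MvPolynomial σ R →ₐ[R] Polynomial (MvPolynomial σ R) :=
  aeval fun i => Polynomial.C (X i) * Polynomial.X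

omit [IsDomain R] in
theorem homT_monomial (m : σ →₀ ℕ) (c : R) :
    homT R σ (monomial m c) = Polynomial.monomial m.degree (monomial m c) := by
  rw [homT, aeval_monomial]
  have h1 : (m.prod fun i k => (Polynomial.C (X i : MvPolynomial σ R) * Polynomial.X) ^ k) =
      Polynomial.C (m.prod fun i k => (X i : MvPolynomial σ R) ^ k) *
        Polynomial.X ^ m.degree := by
    rw [Finsupp.prod, Finsupp.prod, Finsupp.degree_apply, ← Finset.prod_pow_eq_pow_sum, map_prod,
      ← Finset.prod_mul_distrib]
    refine Finset.prod_congr rfl fun i _ => ?_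
    rw [mul_pow, map_pow]
  rw [h1, ← Polynomial.C_mul_X_pow_eq_monomial, ← mul_assoc]
  congr 1
  rw [MvPolynomial.monomial_eq, Polynomial.C_mul]
  rfl

omit [IsDomain R] in
theorem homT_coeff (f : MvPolynomial σ R) (n : ℕ) :
    (homT R σ f).coeff n = homogeneousComponent n f := by
  induction f using MvPolynomial.induction_on' with
  | monomial m c =>
    rw [homT_monomial, Polynomial.coeff_monomial]
    by_cases h : m.degree = n
    · rw [if_pos h, homogeneousComponent_of_mem ((mem_homogeneousSubmodule _ _).2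
        (isHomogeneous_monomial c h)), if_pos rfl]
    · rw [if_neg h, homogeneousComponent_of_mem ((mem_homogeneousSubmodule _ _).2
        (isHomogeneous_monomial c rfl)), if_neg (fun h' => h h'.symm)]
  | add p q hp hq => rw [map_add, Polynomial.coeff_add, hp, hq, map_add]

omit [IsDomain R] in
theorem homT_of_hom {f : MvPolynomial σ R} {n : ℕ} (hf : f.IsHomogeneous n) :
    homT R σ f = Polynomial.monomial n f := by
  ext1 k
  rw [homT_coeff, Polynomial.coeff_monomial, homogeneousComponent_of_mem
    ((mem_homogeneousSubmodule _ _).2 hf)]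
  by_cases h : n = k
  · rw [if_pos h, if_pos h.symm]
  · rw [if_neg h, if_neg (fun h' => h h'.symm)]

omit [IsDomain R] in
theorem hom_of_homT {f g : MvPolynomial σ R} {n : ℕ} (h : homT R σ f = Polynomial.monomial n g) :
    f.IsHomogeneous n := by
  have h1 : ∀ k, k ≠ n → homogeneousComponent k f = 0 := by
    intro k hk
    rw [← homT_coeff, h, Polynomial.coeff_monomial, if_neg (fun h' => hk h'.symm)]
  have h2 : f = homogeneousComponent n f := by
    conv_lhs => rw [← sum_homogeneousComponent f]
    by_cases hn : n ∈ Finset.range (f.totalDegree + 1)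
    · exact Finset.sum_eq_single_of_mem n hn fun k _ hk => h1 k hk
    · rw [Finset.sum_eq_zero fun k hk => h1 k (fun h' => hn (h' ▸ hk))]
      rw [Finset.mem_range, not_lt] at hn
      rw [homogeneousComponent_eq_zero _ _ (by omega)]
  rw [h2]
  exact homogeneousComponent_isHomogeneous n f

/-- **Factors of forms are forms.** -/
theorem hom_of_mul {x y : MvPolynomial σ R} {n : ℕ} (h : (x * y).IsHomogeneous n)
    (h0 : x * y ≠ 0) : ∃ i j, i + j = n ∧ x.IsHomogeneous i ∧ y.IsHomogeneous j := by
  have hx0 : x ≠ 0 := left_ne_zero_of_mul h0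
  have hy0 : y ≠ 0 := right_ne_zero_of_mul h0
  have h1 := homT_of_hom h
  rw [map_mul] at h1
  have hinj : ∀ f : MvPolynomial σ R, f ≠ 0 → homT R σ f ≠ 0 := by
    intro f hf h0
    apply hf
    rw [← sum_homogeneousComponent f]
    refine Finset.sum_eq_zero fun k _ => ?_
    rw [← homT_coeff, h0, Polynomial.coeff_zero]
  set p := homT R σ x with hp
  set q := homT R σ y with hq
  have hp0 : p ≠ 0 := hinj x hx0
  have hq0 : q ≠ 0 := hinj y hy0
  have e1 : p.natDegree + q.natDegree = n := by
    rw [← Polynomial.natDegree_mul hp0 hq0, h1, Polynomial.natDegree_monomial, if_neg h0]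
  have e2 : p.natTrailingDegree + q.natTrailingDegree = n := by
    rw [← Polynomial.natTrailingDegree_mul hp0 hq0, h1, Polynomial.natTrailingDegree_monomial h0]
  have e3 : p.natTrailingDegree ≤ p.natDegree := Polynomial.natTrailingDegree_le_natDegree p
  have e4 : q.natTrailingDegree ≤ q.natDegree := Polynomial.natTrailingDegree_le_natDegree q
  have key : ∀ r : Polynomial (MvPolynomial σ R), r.natTrailingDegree = r.natDegree →
      r = Polynomial.monomial r.natDegree (r.coeff r.natDegree) := by
    intro r hr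
    ext1 k
    rw [Polynomial.coeff_monomial]
    by_cases hk : r.natDegree = k
    · rw [if_pos hk, hk]
    · rw [if_neg hk]
      rcases lt_or_gt_of_ne hk with h | h
      · exact Polynomial.coeff_eq_zero_of_natDegree_lt h
      · exact Polynomial.coeff_eq_zero_of_lt_natTrailingDegree (by omega)
  refine ⟨p.natDegree, q.natDegree, e1, hom_of_homT (key p (by omega)),
    hom_of_homT (key q (by omega))⟩

theorem hom_of_dvd {x f : MvPolynomial σ R} {n : ℕ} (hf : f.IsHomogeneous n) (hf0 : f ≠ 0)
    (h : x ∣ f) : ∃ i, i ≤ n ∧ x.IsHomogeneous i := by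
  obtain ⟨y, rfl⟩ := h
  obtain ⟨i, j, hij, hx, -⟩ := hom_of_mul hf hf0
  exact ⟨i, by omega, hx⟩

/-- the quotient of two forms is a form of the right degree -/
theorem hom_quot {x y : MvPolynomial σ R} {n a : ℕ} (h : (x * y).IsHomogeneous n)
    (hx : x.IsHomogeneous a) (h0 : x * y ≠ 0) : a ≤ n ∧ y.IsHomogeneous (n - a) := by
  obtain ⟨i, j, hij, hx', hy'⟩ := hom_of_mul h h0
  have h1 : i = a := hx'.inj_right hx (left_ne_zero_of_mul h0)
  subst h1
  exact ⟨by omega, by rwa [show n - i = j by omega]⟩

end factors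

section dim

variable (K : Type) [Field K]

theorem finrank_hom (t : ℕ) :
    Module.finrank K (homogeneousSubmodule (Fin 3) K t) = (t + 2).choose 2 := by
  have h1 : homogeneousSubmodule (Fin 3) K t = restrictSupport K {d | d.degree = t} :=
    homogeneousSubmodule_eq_finsupp_supported (Fin 3) K t
  rw [h1, Module.finrank_eq_nat_card_basis (basisRestrictSupport K {d : Fin 3 →₀ ℕ | d.degree = t})]
  have h2 : {d : Fin 3 →₀ ℕ | d.degree = t} =
      ((Finset.univ : Finset (Fin 3)).finsuppAntidiag t : Set (Fin 3 →₀ ℕ)) := by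
    ext d
    simp [Finsupp.degree_eq_sum]
  rw [h2, Nat.card_coe_set_eq, Set.ncard_coe_finset, Finset.card_finsuppAntidiag_nat_eq_choose]
  simp only [Finset.card_univ, Fintype.card_fin]
  rw [show 3 + t - 1 = t + 2 by omega, ← Nat.choose_symm_add]

instance (t : ℕ) : FiniteDimensional K (homogeneousSubmodule (Fin 3) K t) :=
  Module.Finite.iff_fg.2 (homogeneousSubmodule_fg (Fin 3) K t)

end dim

section bezout

variable {K : Type} [Field K]

theorem two_choose (n : ℕ) : 2 * (n + 2).choose 2 = (n + 2) * (n + 1) := by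
  rw [Nat.choose_two_right, Nat.mul_div_cancel' (Nat.even_mul_pred_self (n + 2)).two_dvd]
  rfl

theorem choose_ineq (t a b : ℕ) (h : a + b ≤ t) :
    (t + 2).choose 2 + (t - (a + b) + 2).choose 2 =
      (t - a + 2).choose 2 + (t - b + 2).choose 2 + a * b := by
  obtain ⟨r, rfl⟩ := Nat.exists_eq_add_of_le h
  have e1 : a + b + r - a = b + r := by omega
  have e2 : a + b + r - b = a + r := by omega
  have e3 : a + b + r - (a + b) = r := by omega
  rw [e1, e2, e3]
  have h1 := two_choose (a + b + r)
  have h2 := two_choose r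
  have h3 := two_choose (b + r)
  have h4 := two_choose (a + r)
  nlinarith

/-- multiplication by a form -/
noncomputable def mulL (g : MvPolynomial (Fin 3) K) :
    MvPolynomial (Fin 3) K →ₗ[K] MvPolynomial (Fin 3) K := LinearMap.mulLeft K g

theorem mulL_apply (g u : MvPolynomial (Fin 3) K) : mulL g u = g * u := rfl

theorem finrank_map_mul {g : MvPolynomial (Fin 3) K} (hg : g ≠ 0)
    (V : Submodule K (MvPolynomial (Fin 3) K)) :
    Module.finrank K (V.map (mulL g)) = Module.finrank K V := by
  have hinj : Function.Injective (mulL g) := fun x y h => mul_left_cancel₀ hg h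
  exact (LinearEquiv.finrank_eq (Submodule.equivMapOfInjective (mulL g) hinj V)).symm

/-- the dimension count of Bezout -/
theorem bezout_dim {g h : MvPolynomial (Fin 3) K} {a b t : ℕ} (hg : g.IsHomogeneous a)
    (hh : h.IsHomogeneous b) (hg0 : g ≠ 0) (hh0 : h ≠ 0)
    (hrel : ∀ u v : MvPolynomial (Fin 3) K, g * u = h * v → h ∣ u) (ht : a + b ≤ t)
    {W : Type} [AddCommGroup W] [Module K W] (φ : MvPolynomial (Fin 3) K →ₗ[K] W)
    (hφg : ∀ u, φ (g * u) = 0) (hφh : ∀ u, φ (h * u) = 0) :
    Module.finrank K ((homogeneousSubmodule (Fin 3) K t).map φ) ≤ a * b := by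
  set V := homogeneousSubmodule (Fin 3) K t with hV
  set A := (homogeneousSubmodule (Fin 3) K (t - a)).map (mulL g) with hA
  set B := (homogeneousSubmodule (Fin 3) K (t - b)).map (mulL h) with hB
  set Cc := (homogeneousSubmodule (Fin 3) K (t - (a + b))).map (mulL (g * h)) with hC
  have fA : Module.finrank K A = (t - a + 2).choose 2 := by
    rw [hA, finrank_map_mul hg0, finrank_hom]
  have fB : Module.finrank K B = (t - b + 2).choose 2 := by
    rw [hB, finrank_map_mul hh0, finrank_hom]
  have fC : Module.finrank K Cc = (t - (a + b) + 2).choose 2 := by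
    rw [hC, finrank_map_mul (mul_ne_zero hg0 hh0), finrank_hom]
  have hAV : A ≤ V := by
    rintro x ⟨u, hu, rfl⟩
    rw [mulL_apply, hV, mem_homogeneousSubmodule]
    have := hg.mul ((mem_homogeneousSubmodule _ _).1 hu)
    rwa [show a + (t - a) = t by omega] at this
  have hBV : B ≤ V := by
    rintro x ⟨u, hu, rfl⟩
    rw [mulL_apply, hV, mem_homogeneousSubmodule]
    have := hh.mul ((mem_homogeneousSubmodule _ _).1 hu)
    rwa [show b + (t - b) = t by omega] at this
  have hinf : A ⊓ B ≤ Cc := by
    rintro x ⟨⟨u, hu, hux⟩, ⟨w, hw, hwx⟩⟩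
    rw [mulL_apply] at hux hwx
    by_cases hx : x = 0
    · rw [hx]; exact Cc.zero_mem
    obtain ⟨r, rfl⟩ := hrel u w (hux.trans hwx.symm)
    refine ⟨r, ?_, ?_⟩
    · have h1 : (h * r) ≠ 0 := by
        intro h0
        rw [h0, mul_zero] at hux
        exact hx hux.symm
      have h2 := hom_quot ((mem_homogeneousSubmodule _ _).1 hu) hh h1
      rw [SetLike.mem_coe, mem_homogeneousSubmodule]
      have := h2.2
      rwa [show t - a - b = t - (a + b) by omega] at this
    · rw [mulL_apply, ← hux]; ring
  have hdim := Submodule.finrank_sup_add_finrank_inf_eq A B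
  have hS : A ⊔ B ≤ V ⊓ LinearMap.ker φ := by
    refine le_inf (sup_le hAV hBV) (sup_le ?_ ?_)
    · rintro x ⟨u, _, rfl⟩
      rw [LinearMap.mem_ker, mulL_apply, hφg]
    · rintro x ⟨u, _, rfl⟩
      rw [LinearMap.mem_ker, mulL_apply, hφh]
  have hfdV : FiniteDimensional K V := inferInstance
  have hfC := Submodule.finrank_mono hinf
  have hfS : Module.finrank K (A ⊔ B : Submodule K (MvPolynomial (Fin 3) K)) ≤
      Module.finrank K (V ⊓ LinearMap.ker φ : Submodule K (MvPolynomial (Fin 3) K)) := by
    have : FiniteDimensional K (V ⊓ LinearMap.ker φ : Submodule K (MvPolynomial (Fin 3) K)) :=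
      Submodule.finiteDimensional_inf_left V (LinearMap.ker φ)
    exact Submodule.finrank_mono hS
  have hrn := LinearMap.finrank_range_add_finrank_ker (φ.domRestrict V)
  have hr1 : LinearMap.range (φ.domRestrict V) = V.map φ := by
    rw [LinearMap.range_domRestrict]
  have hr2 : Module.finrank K (LinearMap.ker (φ.domRestrict V)) =
      Module.finrank K (V ⊓ LinearMap.ker φ : Submodule K (MvPolynomial (Fin 3) K)) := by
    rw [LinearMap.ker_domRestrict, ← Submodule.map_comap_subtype,
      Submodule.finrank_map_subtype_eq]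
  rw [hr1, hr2, hV, finrank_hom, ← hV] at hrn
  have hch := choose_ineq t a b ht
  omega

end bezout


section prime

variable {K : Type} [Field K] {ι : Type}

theorem rel_of_prime {g h : MvPolynomial ι K} (hg : Prime g) (hgh : ¬ g ∣ h)
    (u v : MvPolynomial ι K) (huv : g * u = h * v) : h ∣ u := by
  have h1 : g ∣ h * v := ⟨u, huv.symm⟩
  obtain ⟨w, rfl⟩ := (hg.dvd_or_dvd h1).resolve_left hgh
  refine ⟨w, mul_left_cancel₀ hg.ne_zero ?_⟩
  rw [huv]; ring


end prime

end Pool.Agent.Edge.H9.Forms
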