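import Pool.Agent.Lib.MP_c7af3c_ag.EDGE.Iface
import Pool.Agent.Lib.MP_c7af3c_ag.EDGE.H9.Forms

/-!
# MP_c7af3c_ag, project EDGE: module BEZ (and the core of BEZC)

The form over `k` which vanishes at `y` and is irreducible divides all forms over `k` which vanish
at `y`: otherwise (Bezout) the values of the forms of degree `t` over `k` at `y` span a space of
dimension at most `a b` over `k`, for all `t`, so `y_1` is algebraic over `k`.
-/

set_option autoImplicit false

namespace Pool.Agent.Edge.H9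

open MvPolynomial

section

variable {Ω : Type} [Field Ω] (k : Subfield Ω)

/-- lift of a polynomial with coefficients in `k` -/
theorem exists_lift {σ : Type} (B : MvPolynomial σ Ω) (hB : ∀ I, coeff I B ∈ k) :
    ∃ B' : MvPolynomial σ k, map (algebraMap k Ω) B' = B := by
  have h : B ∈ Set.range (map (algebraMap k Ω) : MvPolynomial σ k →+* MvPolynomial σ Ω) := by
    rw [mem_range_map_iff_coeffs_subset]
    intro z hz
    obtain ⟨I, -, rfl⟩ := MvPolynomial.mem_coeffs_iff.1 hz
    exact ⟨⟨coeff I B, hB I⟩, rfl⟩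
  exact h

theorem map_inj {σ : Type} :
    Function.Injective (map (algebraMap k Ω) : MvPolynomial σ k → MvPolynomial σ Ω) :=
  map_injective _ (algebraMap k Ω).injective

theorem aeval_lift {σ : Type} (y : σ → Ω) (B' : MvPolynomial σ k) :
    aeval y B' = eval y (map (algebraMap k Ω) B') := by
  rw [eval_map, aeval_def]

/-- a linear form is determined by its coefficients -/
theorem lin_form {K : Type} [Field K] {n : ℕ} {g : MvPolynomial (Fin n) K}
    (hg : g.IsHomogeneous 1) : ∃ a : Fin n → K, g = ∑ i, C (a i) * X i := by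
  rw [← mem_homogeneousSubmodule, homogeneousSubmodule_one_eq_span_X] at hg
  obtain ⟨a, ha⟩ := (Submodule.mem_span_range_iff_exists_fun K).1 hg
  exact ⟨a, by rw [← ha]; exact Finset.sum_congr rfl fun i _ => by rw [smul_eq_C_mul]⟩

end

section

variable {Ω : Type} [Field Ω] {k : Subfield Ω} {y : Fin 3 → Ω}

/-- finitely many values of forms: `y_1` is algebraic -/
theorem alg_of_bound {N t : ℕ} (ht : N ≤ t) (y0 : y 0 = 1)
    (h : Module.finrank k ((homogeneousSubmodule (Fin 3) k t).map
      (aeval y : MvPolynomial (Fin 3) k →ₐ[k] Ω).toLinearMap) ≤ N) :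
    ∃ p : Polynomial Ω, p ≠ 0 ∧ (∀ i, p.coeff i ∈ k) ∧ p.eval (y 1) = 0 := by
  set W := (homogeneousSubmodule (Fin 3) k t).map
      (aeval y : MvPolynomial (Fin 3) k →ₐ[k] Ω).toLinearMap with hW
  have hmem : ∀ i : Fin (t + 1), y 1 ^ (i : ℕ) ∈ W := by
    intro i
    refine ⟨X 0 ^ (t - i) * X 1 ^ (i : ℕ), ?_, ?_⟩
    · rw [SetLike.mem_coe, mem_homogeneousSubmodule]
      have h1 := (((isHomogeneous_X k (0 : Fin 3)).pow (t - (i : ℕ))).mul
        ((isHomogeneous_X k (1 : Fin 3)).pow (i : ℕ)))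
      rwa [one_mul, one_mul, Nat.sub_add_cancel (by omega)] at h1
    · simp [y0]
  have hfd : FiniteDimensional k W := by
    have : FiniteDimensional k (homogeneousSubmodule (Fin 3) k t) := inferInstance
    infer_instance
  have hnot : ¬ LinearIndependent k fun i : Fin (t + 1) => (⟨y 1 ^ (i : ℕ), hmem i⟩ : W) := by
    intro hli
    have := hli.fintype_card_le_finrank
    rw [Fintype.card_fin] at this
    omega
  rw [Fintype.linearIndependent_iff] at hnot
  push Not at hnot
  obtain ⟨g, hg, i0, hi0⟩ := hnot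
  have hg' : ∑ i : Fin (t + 1), (g i : Ω) * y 1 ^ (i : ℕ) = 0 := by
    have h1 := congrArg (fun w : W => (w : Ω)) hg
    simp only [Submodule.coe_sum, Submodule.coe_smul, Submodule.coe_zero] at h1
    rw [← h1]
    rfl
  refine ⟨∑ i : Fin (t + 1), Polynomial.monomial (i : ℕ) (g i : Ω), ?_, ?_, ?_⟩
  · intro h0
    apply hi0
    have h1 := congrArg (fun p => Polynomial.coeff p (i0 : ℕ)) h0
    simp only [Polynomial.finset_sum_coeff, Polynomial.coeff_monomial, Polynomial.coeff_zero] at h1
    rw [Finset.sum_eq_single i0] at h1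
    · rw [if_pos rfl] at h1
      exact_mod_cast h1
    · intro j _ hj
      rw [if_neg]
      exact fun h => hj (Fin.ext h)
    · intro h; exact absurd (Finset.mem_univ _) h
  · intro j
    simp only [Polynomial.finset_sum_coeff, Polynomial.coeff_monomial]
    refine Subfield.sum_mem _ fun i _ => ?_
    split_ifs
    · exact (g i).2
    · exact k.zero_mem
  · simp only [Polynomial.eval_finset_sum, Polynomial.eval_monomial]
    exact hg'

end

/-- the irreducible form over `k` which vanishes at `y` divides all forms over `k` which vanish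
at `y` -/
theorem bezc_core (Ω : Type) [Field Ω] (k : Subfield Ω) (y : Fin 3 → Ω)
    (hkalg : ∀ (z : Ω) (p : Polynomial Ω), p ≠ 0 → (∀ i, p.coeff i ∈ k) → p.eval z = 0 → z ∈ k)
    (y0 : y 0 = 1) (hy : ∀ a : Fin 3 → Ω, (∀ i, a i ∈ k) → ∑ i, a i * y i = 0 → a = 0)
    (f : MvPolynomial (Fin 3) Ω) (r : ℕ) (hf : f.IsHomogeneous r) (hfk : ∀ I, coeff I f ∈ k)
    (hf0 : f ≠ 0) (hfy : eval y f = 0) :
    ∃ (g : MvPolynomial (Fin 3) Ω) (δ : ℕ), g.IsHomogeneous δ ∧ g ≠ 0 ∧ 2 ≤ δ ∧
      ∀ (B : MvPolynomial (Fin 3) Ω) (b : ℕ), B.IsHomogeneous b → (∀ I, coeff I B ∈ k) →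
        eval y B = 0 → g ∣ B := by
  have hy1 : y 1 ∉ k := by
    intro h1
    have h2 := hy ![-y 1, 1, 0] (by
      intro i
      fin_cases i
      · exact k.neg_mem h1
      · exact k.one_mem
      · exact k.zero_mem) (by
      rw [Fin.sum_univ_three, y0]
      simp)
    have h3 := congrFun h2 1
    simp at h3
  obtain ⟨f', hf'⟩ := exists_lift k f hfk
  have hf'0 : f' ≠ 0 := by
    rintro rfl
    rw [map_zero] at hf'
    exact hf0 hf'.symm
  have hf'h : f'.IsHomogeneous r := by
    refine IsHomogeneous.of_map (algebraMap k Ω).injective ?_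
    rw [hf']
    exact hf
  have hf'y : aeval y f' = 0 := by rw [aeval_lift, hf', hfy]
  -- an irreducible factor which vanishes at y
  obtain ⟨g, hgp, hgd, hgy⟩ : ∃ g : MvPolynomial (Fin 3) k, Prime g ∧ g ∣ f' ∧
      aeval y g = 0 := by
    have h1 := UniqueFactorizationMonoid.factors_prod hf'0
    have h2 : (aeval y : MvPolynomial (Fin 3) k →ₐ[k] Ω)
        (UniqueFactorizationMonoid.factors f').prod = 0 := by
      obtain ⟨u, hu⟩ := h1.symm
      rw [← hu, map_mul, hf'y, zero_mul]
    rw [map_multiset_prod, Multiset.prod_eq_zero_iff, Multiset.mem_map] at h2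
    obtain ⟨g, hg, hgy⟩ := h2
    exact ⟨g, UniqueFactorizationMonoid.prime_of_factor g hg,
      UniqueFactorizationMonoid.dvd_of_mem_factors hg, hgy⟩
  obtain ⟨δ, -, hgh⟩ := Forms.hom_of_dvd hf'h hf'0 hgd
  refine ⟨map (algebraMap k Ω) g, δ, hgh.map _, ?_, ?_, ?_⟩
  · intro h0
    apply hgp.ne_zero
    apply map_inj k
    rw [h0, map_zero]
  · by_contra hlt
    have hδ : δ = 0 ∨ δ = 1 := by omega
    rcases hδ with rfl | rfl
    · have h1 : g = C (coeff 0 g) := (totalDegree_eq_zero_iff_eq_C).1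
        (Nat.le_zero.1 hgh.totalDegree_le)
      have h2 : coeff 0 g ≠ 0 := by
        intro h0
        apply hgp.ne_zero
        rw [h1, h0, map_zero]
      rw [h1, aeval_C] at hgy
      exact h2 ((algebraMap k Ω).injective (by rw [hgy, map_zero]))
    · obtain ⟨a, ha⟩ := lin_form hgh
      have h1 : ∑ i, (a i : Ω) * y i = 0 := by
        rw [← hgy, ha, map_sum]
        refine Finset.sum_congr rfl fun i _ => ?_
        rw [map_mul, aeval_C, aeval_X]
        rfl
      have h2 := hy (fun i => (a i : Ω)) (fun i => (a i).2) h1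
      apply hgp.ne_zero
      rw [ha]
      refine Finset.sum_eq_zero fun i _ => ?_
      have h3 : a i = 0 := Subtype.ext (congrFun h2 i)
      rw [h3, map_zero, zero_mul]
  · intro B b hB hBk hBy
    obtain ⟨B', hB'⟩ := exists_lift k B hBk
    have hB'h : B'.IsHomogeneous b := by
      refine IsHomogeneous.of_map (algebraMap k Ω).injective ?_
      rw [hB']
      exact hB
    have hB'y : aeval y B' = 0 := by rw [aeval_lift, hB', hBy]
    rw [← hB']
    suffices h : g ∣ B' from map_dvd (map (algebraMap k Ω)) h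
    by_contra hnd
    have hB'0 : B' ≠ 0 := by
      rintro rfl
      exact hnd (dvd_zero g)
    have h1 := Forms.bezout_dim hgh hB'h hgp.ne_zero hB'0 (Forms.rel_of_prime hgp hnd)
      (t := δ + b + δ * b) (by omega) (aeval y : MvPolynomial (Fin 3) k →ₐ[k] Ω).toLinearMap
      (fun u => by rw [AlgHom.toLinearMap_apply, map_mul, hgy, zero_mul])
      (fun u => by rw [AlgHom.toLinearMap_apply, map_mul, hB'y, zero_mul])
    obtain ⟨p, hp0, hpk, hpy⟩ := alg_of_bound (k := k) (N := δ * b) (by omega) y0 h1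
    exact hy1 (hkalg (y 1) p hp0 hpk hpy)

/-- module BEZ -/
theorem bez : BezStatement := by
  intro Ω _ _ k y hkalg y0 hy f B r b hf hB hfk hBk hf0 hB0 hfy hBy
  obtain ⟨g, δ, hg, hg0, hδ, hdvd⟩ := bezc_core Ω k y hkalg y0 hy f r hf hfk hf0 hfy
  obtain ⟨h, rfl⟩ := hdvd f r hf hfk hfy
  obtain ⟨h1, h2⟩ := Forms.hom_quot hf hg hf0
  obtain ⟨q, rfl⟩ := hdvd B b hB hBk hBy
  obtain ⟨h3, -⟩ := Forms.hom_quot hB hg hB0
  exact ⟨g, h, δ, r - δ, hg, h2, rfl, by omega, hδ, h3⟩

end Pool.Agent.Edge.H9
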