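import Pool.Agent.Lib.MP_c7af3c_ag.EDGE.C2.Iface
import Pool.Agent.Lib.MP_c7af3c_ag.EDGE.H9.Bez

/-!
# MP_c7af3c_ag, project EDGE, tuples: module BEZC
-/

set_option autoImplicit false

namespace Pool.Agent.Edge.H9

open Pool.Agent.Edge.C2

/-- module BEZC -/
theorem bezc : BezcStatement := by
  intro Ω _ _ k y hkalg y0 hy f r hf hfk hf0 hfy
  exact bezc_core Ω k y hkalg y0 hy f r hf hfk hf0 hfy

end Pool.Agent.Edge.H9
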