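import Pool.Agent.Lib.MP_c7af3c_ag.EDGE.Iface
import Pool.Agent.Lib.MP_c7af3c_ag.EDGE.H19.Refine

/-!
# MP_c7af3c_ag, project EDGE: the determinant as an alternating form (module OMEGA)
-/

set_option autoImplicit false

namespace Pool.Agent.Edge.H9

open MvPolynomial WithZero Pool.Agent.Gen Pool.Agent.Sharp Pool.Agent.Lines.H75

section

variable {L : Type} [Field L] {n c : ℕ} {d : Fin c → ℕ} (D : DSys L n c d)
  (x : Fin (n + 1) → L) (j0 : Fin (n + 1))

/-- the functionals `u_j0` and `F'_m(x) u` -/
noncomputable def fn : (Fin (n + 1) → L) →ₗ[L] (Option (Fin c) → L) where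
  toFun u o := Option.elim o (u j0) fun m => ∑ p, eval x (pderiv p (D.F m)) * u p
  map_add' u u' := by
    funext o
    cases o with
    | none => rfl
    | some m => simp [mul_add, Finset.sum_add_distrib]
  map_smul' a u := by
    funext o
    cases o with
    | none => rfl
    | some m =>
      simp only [Option.elim, Pi.smul_apply, smul_eq_mul, RingHom.id_apply, Finset.mul_sum]
      exact Finset.sum_congr rfl fun p _ => by ring

theorem fn_none (u : Fin (n + 1) → L) : fn D x j0 u none = u j0 := rfl

theorem fn_some (u : Fin (n + 1) → L) (m : Fin c) :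
    fn D x j0 u (some m) = ∑ p, eval x (pderiv p (D.F m)) * u p := rfl

theorem fn_surj (hj0 : x j0 = 1) (h0 : ∀ m, eval x (D.F m) = 0) :
    Function.Surjective (fn D x j0) := by
  classical
  intro g
  set w : Fin (n + 1) → L := -∑ m, g (some m) • D.V x m (X j0 ^ d m) with hw
  have h1 : ∀ m, fn D x j0 w (some m) = g (some m) := by
    intro m
    rw [hw, map_neg, map_sum, Pi.neg_apply, Finset.sum_apply]
    simp only [map_smul, Pi.smul_apply, smul_eq_mul]
    rw [Finset.sum_eq_single m]
    · rw [fn_some, grad_U D x h0, if_pos rfl, hj0, one_pow]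
      ring
    · intro m' _ hm
      rw [fn_some, grad_U D x h0, if_neg hm, mul_zero]
    · intro h; exact absurd (Finset.mem_univ _) h
  refine ⟨w + (g none - w j0) • x, ?_⟩
  funext o
  rw [map_add, map_smul, Pi.add_apply, Pi.smul_apply, smul_eq_mul]
  cases o with
  | none =>
    rw [fn_none, fn_none, hj0]
    ring
  | some m =>
    rw [h1, fn_some, grad_x D x h0, mul_zero, add_zero]

/-- the kernel -/
noncomputable def QQ : Submodule L (Fin (n + 1) → L) := LinearMap.ker (fn D x j0)

theorem mem_QQ (u : Fin (n + 1) → L) :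
    u ∈ QQ D x j0 ↔ u j0 = 0 ∧ ∀ m, ∑ p, eval x (pderiv p (D.F m)) * u p = 0 := by
  rw [QQ, LinearMap.mem_ker]
  constructor
  · intro h
    exact ⟨congrFun h none, fun m => congrFun h (some m)⟩
  · rintro ⟨h1, h2⟩
    funext o
    cases o with
    | none => exact h1
    | some m => exact h2 m

theorem finrank_QQ (hj0 : x j0 = 1) (h0 : ∀ m, eval x (D.F m) = 0) :
    Module.finrank L (QQ D x j0) + (c + 1) = n + 1 := by
  have h1 := LinearMap.finrank_range_add_finrank_ker (fn D x j0)
  rw [LinearMap.range_eq_top.2 (fn_surj D x j0 hj0 h0), finrank_top] at h1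
  simp only [Module.finrank_pi, Fintype.card_option, Fintype.card_fin] at h1
  rw [QQ]
  omega

/-- the columns -/
noncomputable def colQ {e : ℕ} (u : Fin e ⊕ Fin e → QQ D x j0) :
    (Unit ⊕ (Fin e ⊕ Fin e)) ⊕ Fin c → Fin (n + 1) → L :=
  colU D x (Sum.elim (fun _ : Unit => x) fun s => (u s : Fin (n + 1) → L)) j0

theorem colQ_update {e : ℕ} (u : Fin e ⊕ Fin e → QQ D x j0) (s : Fin e ⊕ Fin e)
    (w : QQ D x j0) : colQ D x j0 (Function.update u s w) =
      Function.update (colQ D x j0 u) (Sum.inl (Sum.inr s)) (w : Fin (n + 1) → L) := by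
  classical
  funext k
  rcases k with ((a | j) | m)
  · rw [Function.update_of_ne (by simp)]
    rfl
  · by_cases h : j = s
    · subst h
      rw [Function.update_self]
      simp only [colQ, colU, Sum.elim_inl, Sum.elim_inr, Function.update_self]
    · rw [Function.update_of_ne (by simpa using h)]
      simp only [colQ, colU, Sum.elim_inl, Sum.elim_inr, Function.update_of_ne h]
  · rw [Function.update_of_ne (by simp)]
    rfl

/-- the alternating form -/
noncomputable def omega {e : ℕ} (ε : (Unit ⊕ (Fin e ⊕ Fin e)) ⊕ Fin c ≃ Fin (n + 1)) :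
    (QQ D x j0) [⋀^(Fin e ⊕ Fin e)]→ₗ[L] L where
  toFun u := H19.detA ε (colQ D x j0 u)
  map_update_add' := by
    intro inst u s w w'
    have hinst : inst = instDecidableEqSum := Subsingleton.elim _ _
    subst hinst
    rw [colQ_update, colQ_update, colQ_update, Submodule.coe_add,
      AlternatingMap.map_update_add]
  map_update_smul' := by
    intro inst u s a w
    have hinst : inst = instDecidableEqSum := Subsingleton.elim _ _
    subst hinst
    rw [colQ_update, colQ_update, Submodule.coe_smul, AlternatingMap.map_update_smul]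
  map_eq_zero_of_eq' := by
    intro u s s' h hne
    refine (H19.detA ε).map_eq_zero_of_eq _ (i := Sum.inl (Sum.inr s))
      (j := Sum.inl (Sum.inr s')) ?_ (by simpa using hne)
    show (u s : Fin (n + 1) → L) = (u s' : Fin (n + 1) → L)
    rw [h]

end

/-- module OMEGA -/
theorem omegaS : OmegaStatement := by
  intro Ω _ n c e d D x j0 hj0 h0 hn ε
  refine ⟨QQ D x j0, ?_, mem_QQ D x j0, omega D x j0 ε, ?_⟩
  · have := finrank_QQ D x j0 hj0 h0
    omega
  · intro u
    show H19.detA ε (colQ D x j0 u) = _
    rw [H19.detA_apply]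
    rfl

end Pool.Agent.Edge.H9
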